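import Pool.Agent.W_448pn_h63.PoC
import Pool.Agent.W_448so_h64.SoW

/-!
# The (6,2) value of the parts without flips and without twins in case B at the window `j - 1`
(MP_448cb3_co, G2, piece (f), helper53)

No hypothesis on the number of sites.  For at most three sites the value is `- #N1f`.
-/

set_option autoImplicit false

namespace Pool.Agent.GaussPoset.Win.Pn

set_option linter.unusedSectionVars false

open Finset W4 Wd
open Pool.Agent.GaussPoset.Win.SO (con PN on mem_PN vp F5 mem_F5 N1f N5f mem_N1f mem_N5f)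
open Pool.Agent.GaussPoset.Win.I2 (lS uS mem_lS mem_uS)

universe u

variable {P : Type u} [Fintype P] [PartialOrder P] [DecidableEq P] {r j i : ℕ}
  {psi : P → P} {C : Finset P} {p w z : P}

/-- a charged element has at least two sites -/
lemma chs_two (H : Gr P r) (hz : z ∈ Chs i C) : 2 ≤ (sit i z).card := by
  rcases SO.Chs_cases H hz with ⟨h, hl⟩ | ⟨h, hl⟩ | ⟨h, hl⟩ | ⟨h, hl⟩
  · rw [sit_low H (by omega), card_sts, (mem_ZL.1 h).2.2]
    norm_num
  · rw [sit_upp H (by omega), card_stD, (mem_ZU.1 h).2.2]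
    norm_num
  · obtain ⟨p, y, g1, g2, g3, g4, g5, g6⟩ := SO.FL_data H h
    rw [sit_FL H g3 g1, ClE_sts H g4 g2, g6]
  · obtain ⟨p, y, g1, g2, g3, g4, g5, g6⟩ := SO.FU_data H h
    rw [sit_FU H g3 g1, ClE_stD H g4 g2, g6]

section nj

variable (h : NJ P r j) (hij : i + 1 = j) (hi1 : 1 ≤ i)
include h hij hi1

/-- no flip, no twins: the data at the energy six, any number of sites -/
theorem nj_ps6 (hM : Mat P i ∅ psi) (t : Tops P) (hF : F5 i (SS i t) = ∅)
    (hT : Tws i (SS i t) = ∅) : SO.PS6 r i psi (SS i t) := by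
  classical
  have H := h.g.H
  have g : GoodTo P r (i + 1) := by rw [hij]; exact h.g
  have F := nj_fr h hij hi1 hM t
  obtain ⟨n1, n2, -⟩ := nj_one h hij hi1 t
  have M := nj_mtc h hij hi1 hM t hF
  have key : ∀ w ∈ SS i t, ∀ w' ∈ SS i t, ∀ x x' : P, lev w = i + 2 → x ≠ x' → uc w = {x, x'} →
      uc w' = {x, x'} → (uc x).card = 2 → (uc x').card = 2 → ¬ Xg.rk w' < Xg.rk w := by
    intro w hw w' hw' x x' hl hne h1 h2 h3 h4 hrk
    have m1 : x ∈ uc w := by rw [h1]; simp
    have m2 : x' ∈ uc w := by rw [h1]; simp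
    have l1 := lev_uc H m1
    have l2 := lev_uc H m2
    obtain ⟨s, hs1, hs2⟩ := F.hT w hl x m1 x' m2 hne h3
    have T : SO.TD uc (SO.tL (P := P) i) (lS P i) w x x' s := by
      refine ⟨mem_lS.2 (by omega), ?_, h1, hne, h3, h4, hs1, hs2, ?_⟩
      · unfold SO.tL
        omega
      · intro v hv1 hv2
        exact ucv_uniq g (v := x) (v' := x') (by omega) hne (by omega) (mem_uc.1 hv1)
          (mem_uc.1 hv2) (mem_uc.1 hs1) (mem_uc.1 hs2)
    have h5 : (w, w') ∈ Tws i (SS i t) := mem_Tws.2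
      ⟨(SO.td_ZL H T hw).1, hw', fun he => by
        have he' : w = w' := he
        rw [he'] at hrk
        exact lt_irrefl _ hrk, h1.trans h2.symm, hrk⟩
    rw [hT] at h5
    exact notMem_empty _ h5
  refine ⟨⟨H, hi1, g.hr, h.part (by omega) (by omega) t, hM, nll_of g hi1, nlu_of g, ?_, ?_⟩,
    ?_, ?_, ?_, ?_⟩
  · intro p hp p' hp' h1 h2
    exact card_le_one.1 n1 p (mem_filter.2 ⟨hp, h1⟩) p' (mem_filter.2 ⟨hp', h2⟩)
  · intro p hp p' hp' h1 h2
    exact card_le_one.1 n2 p (mem_filter.2 ⟨hp, h1⟩) p' (mem_filter.2 ⟨hp', h2⟩)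
  · intro w hw w' hw' x x' hl hne h1 h2 h3 h4
    by_contra hc
    have m2 : x ∈ uc w' := by rw [h2]; simp
    have l1 := lev_uc H (x := w) (v := x) (by rw [h1]; simp)
    have l2 := lev_uc H m2
    rcases Nat.lt_or_gt_of_ne (fun he => hc (Xg.rk_inj he)) with h5 | h5
    · exact key w' hw' w hw x x' (by omega) hne h2 h1 h3 h4 h5
    · exact key w hw w' hw' x x' hl hne h1 h2 h3 h4 h5
  · intro w hw w' hw' v v' hl hne h1 h2 _ _
    have m1 : v ⋖ w := by rw [← mem_dc, h1]; exact mem_insert_self _ _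
    have m2 : v' ⋖ w := by rw [← mem_dc, h1]; exact mem_insert_of_mem (mem_singleton_self _)
    have m3 : v ⋖ w' := by rw [← mem_dc, h2]; exact mem_insert_self _ _
    have m4 : v' ⋖ w' := by rw [← mem_dc, h2]; exact mem_insert_of_mem (mem_singleton_self _)
    have l1 := lev_cov H m1
    have l2 := lev_cov H m2
    exact ucv_uniq g (by omega) hne (by omega) m1 m2 m3 m4
  · intro p hp hpd
    rcases M.out with hN | ⟨z, x, y, u, hzC, hxC, hzP, hxP, hz, hx, hyu, h2, hz1, hx1, hone⟩
    · exact absurd hpd (hN p hp).1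
    · rw [hz1 p hp hpd]
      exact ⟨y, hz, x, hxC, hxP, by rw [hx, hone]⟩
  · intro p hp hpd
    rcases M.out with hN | ⟨z, x, y, u, hzC, hxC, hzP, hxP, hz, hx, hyu, h2, hz1, hx1, hone⟩
    · exact absurd hpd (hN p hp).2
    · rw [hx1 p hp hpd]
      refine ⟨u, hx, z, hzC, hzP, ?_⟩
      have l1 : lev y = i + 1 := by
        have := lev_uc H (x := z) (v := y) (by rw [hz]; simp)
        have := (mem_PD.1 hzP).1
        omega
      have h5 := (hM.invol y (mem_union_left _ (mem_dbL.2 ⟨l1, h2⟩)) (notMem_empty _)).1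
      rw [hone] at h5
      rw [hz, h5]

/-- THE SECOND ORDER IDENTITY of every part without flips and twins -/
theorem nj_six (t : Tops P) (hF : F5 i (SS i t) = ∅) (hT : Tws i (SS i t) = ∅) :
    (I2.al 3 (st i (SS i t)).card (ZS i (SS i t))) ^ 2 -
        2 * I2.be 6 (st i (SS i t)).card (ZS i (SS i t)) =
      QQ i (SS i t) + 2 * (N1f i (SS i t)).card + 2 * (N5f i (SS i t)).card := by
  obtain ⟨psi, hM⟩ := good_mat h.g.H (h.g.good i (by omega))
  exact (nj_ps6 h hij hi1 hM t hF hT).six' (card_pos.2 (nj_st h hij t))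

/-- at most three sites: the charged elements meet -/
lemma nj_meet_three (t : Tops P) (h3 : (st i (SS i t)).card ≤ 3) {z z' : P}
    (hz : z ∈ Chs i (SS i t)) (hz' : z' ∈ Chs i (SS i t)) :
    ¬ Disjoint (sit i z) (sit i z') := by
  intro hd
  have H := h.g.H
  have m1 := (SO.num_Chs H hz).mC
  have m2 := (SO.num_Chs H hz').mC
  have hP : Part (i + 1) (SS i t) := h.part (by omega) (by omega) t
  have h5 : sit i z ∪ sit i z' ⊆ st i (SS i t) :=
    union_subset (SO.sit_part H hP m1) (SO.sit_part H hP m2)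
  have h6 := card_le_card h5
  rw [card_union_of_disjoint hd] at h6
  have := chs_two H hz
  have := chs_two H hz'
  omega

/-- at most three sites: the form of the charges is the square of the (3,1) value -/
lemma nj_QQ_three (t : Tops P) (h3 : (st i (SS i t)).card ≤ 3) (hF : F5 i (SS i t) = ∅) :
    QQ i (SS i t) = (I2.al 3 (st i (SS i t)).card (ZS i (SS i t))) ^ 2 := by
  classical
  have H := h.g.H
  have h1 : QQ i (SS i t) = (∑ z ∈ Chs i (SS i t), chg i (SS i t) z) ^ 2 := by
    unfold QQ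
    rw [sq, sum_mul_sum]
    refine Finset.sum_congr rfl fun z hz => Finset.sum_congr rfl fun z' hz' => ?_
    rw [if_neg (nj_meet_three h hij hi1 t h3 hz hz')]
  have h2 := sum_chg (S := SS i t) H (i := i) (fun _ => True)
  simp only [filter_true] at h2
  rw [h1, h2, nj_al3 h hij hi1 t hF]
  ring

/-- at most three sites: no element over a pendant and a far T-element -/
lemma nj_N5_three (t : Tops P) (h3 : (st i (SS i t)).card ≤ 3) : N5f i (SS i t) = ∅ := by
  classical
  have H := h.g.H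
  have hC : Part (i + 1) (SS i t) := h.part (by omega) (by omega) t
  obtain ⟨psi, hM⟩ := good_mat h.g.H (h.g.good i (by omega))
  have F := nj_fr h hij hi1 hM t
  rw [eq_empty_iff_forall_notMem]
  intro z hz
  obtain ⟨hzC, ⟨hl, p, w, hp, hw, hu, hd⟩ | ⟨hl, p, w, hp, hw, hu, hd⟩⟩ := mem_N5f.1 hz
  · have hwC := (mem_ZL.1 hw).1
    have hpC : p ∈ SS i t := hC.up hzC (by rw [← mem_uc, hu]; simp)
    have hlp := (mem_PD.1 hp).1
    have hlw := (mem_ZL.1 hw).2.1
    rw [← sit_low H (by omega), ← sit_low H (by omega)] at hd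
    have h5 : sit i p ∪ sit i w ⊆ st i (SS i t) :=
      union_subset (SO.sit_part H hC hpC) (SO.sit_part H hC hwC)
    have h6 := card_le_card h5
    have h7 : (sit i w).card = 3 := by
      rw [sit_low H (by omega), card_sts]
      exact (mem_ZL.1 hw).2.2
    rw [card_union_of_disjoint hd, h7, (pn_two F (mem_PN.2 ⟨hpC, Or.inl hp⟩)).1] at h6
    omega
  · have hwC := (mem_ZU.1 hw).1
    have hlp := (mem_PU.1 hp).1
    have hlw := (mem_ZU.1 hw).2.1
    have hpz : p ⋖ z := by rw [← mem_dc, hu]; simp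
    have hpC : p ∈ SS i t := hC.dn hzC (by have := lev_cov H hpz; omega) hpz
    rw [← sit_upp H (by omega), ← sit_upp H (by omega)] at hd
    have h5 : sit i p ∪ sit i w ⊆ st i (SS i t) :=
      union_subset (SO.sit_part H hC hpC) (SO.sit_part H hC hwC)
    have h6 := card_le_card h5
    have h7 : (sit i w).card = 3 := by
      rw [sit_upp H (by omega), card_stD]
      exact (mem_ZU.1 hw).2.2
    rw [card_union_of_disjoint hd, h7, (pn_two F (mem_PN.2 ⟨hpC, Or.inr hp⟩)).1] at h6
    omega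

/-- THE (6,2) VALUE of the parts with at most three sites, no flip, no twins -/
theorem nj_be6_three (t : Tops P) (h3 : (st i (SS i t)).card ≤ 3) (hF : F5 i (SS i t) = ∅)
    (hT : Tws i (SS i t) = ∅) :
    I2.be 6 (st i (SS i t)).card (ZS i (SS i t)) = -((N1f i (SS i t)).card : ℤ) := by
  have h1 := nj_six h hij hi1 t hF hT
  rw [nj_QQ_three h hij hi1 t h3 hF, nj_N5_three h hij hi1 t h3, card_empty] at h1
  push_cast at h1
  linarith

/-- the (3,1), (6,2) bracket of the functional: `- L31 - 2 L62` -/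
theorem nj_G_three (t : Tops P) (h3 : (st i (SS i t)).card ≤ 3) (hF : F5 i (SS i t) = ∅)
    (hT : Tws i (SS i t) = ∅) :
    -(I2.al 3 (st i (SS i t)).card (ZS i (SS i t))) +
      ((I2.al 3 (st i (SS i t)).card (ZS i (SS i t))) ^ 2 -
        2 * I2.be 6 (st i (SS i t)).card (ZS i (SS i t))) =
      I2.al 3 (st i (SS i t)).card (ZS i (SS i t)) *
          (I2.al 3 (st i (SS i t)).card (ZS i (SS i t)) - 1) +
        2 * ((N1f i (SS i t)).card : ℤ) := by
  rw [nj_be6_three h hij hi1 t h3 hF hT]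
  ring

/-- it is at least zero -/
theorem nj_G_three_nonneg (t : Tops P) (h3 : (st i (SS i t)).card ≤ 3)
    (hF : F5 i (SS i t) = ∅) (hT : Tws i (SS i t) = ∅) :
    2 * ((N1f i (SS i t)).card : ℤ) ≤ -(I2.al 3 (st i (SS i t)).card (ZS i (SS i t))) +
      ((I2.al 3 (st i (SS i t)).card (ZS i (SS i t))) ^ 2 -
        2 * I2.be 6 (st i (SS i t)).card (ZS i (SS i t))) := by
  rw [nj_G_three h hij hi1 t h3 hF hT]
  set a := I2.al 3 (st i (SS i t)).card (ZS i (SS i t))
  have h1 : 0 ≤ a * (a - 1) := by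
    rcases le_or_gt a 0 with h2 | h2
    · exact mul_nonneg_of_nonpos_of_nonpos h2 (by linarith)
    · exact mul_nonneg (by linarith) (by linarith)
  linarith

end nj

end Pool.Agent.GaussPoset.Win.Pn
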